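import Mathlib

/-! Ideals stable under enough derivations vanish near the point (characteristic zero). -/

set_option autoImplicit false

namespace Pool.Agent.Helper50.NS

variable {E : Type*} [CommRing E] [Algebra ℂ E]

/-- A derivation `W` with `W m ≡ m` modulo `𝔪 ^ 2` on `𝔪` multiplies `𝔪 ^ k` by `k` modulo
`𝔪 ^ (k + 1)`. -/
theorem euler_pow (W : Derivation ℂ E E) (I : Ideal E) (h0 : ∀ e, W e ∈ I)
    (h1 : ∀ y ∈ I, W y - y ∈ I ^ 2) (k : ℕ) :
    ∀ y ∈ I ^ k, W y - (k : E) * y ∈ I ^ (k + 1) := by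
  induction k with
  | zero =>
    intro y _
    simpa using h0 y
  | succ k ih =>
    intro y hy
    rw [pow_succ] at hy
    refine Submodule.mul_induction_on hy ?_ ?_
    · intro a ha b hb
      have h2 : W (a * b) - ((k + 1 : ℕ) : E) * (a * b) =
          a * (W b - b) + b * (W a - (k : E) * a) := by
        rw [W.leibniz]
        simp only [smul_eq_mul]
        push_cast
        ring
      rw [h2]
      refine Ideal.add_mem _ ?_ ?_
      · have h3 := Ideal.mul_mem_mul ha (h1 b hb)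
        rwa [← pow_add] at h3
      · have h3 := Ideal.mul_mem_mul hb (ih a ha)
        rwa [← pow_succ'] at h3
    · intro a b ha hb
      have h2 : W (a + b) - ((k + 1 : ℕ) : E) * (a + b) =
          (W a - ((k + 1 : ℕ) : E) * a) + (W b - ((k + 1 : ℕ) : E) * b) := by
        rw [map_add]; ring
      rw [h2]
      exact Ideal.add_mem _ ha hb

theorem krull [IsNoetherianRing E] (q : E →ₐ[ℂ] ℂ) {N : ℕ} (X : Fin N → E)
    (Δ : Fin N → Derivation ℂ E E) (hX : ∀ j, q (X j) = 0)
    (hgen : RingHom.ker q ≤ Ideal.span (Set.range X) ⊔ (RingHom.ker q) ^ 2)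
    (hΔ : ∀ i j, q (Δ i (X j)) = if i = j then 1 else 0) (𝔞 : Ideal E)
    (ha : 𝔞 ≤ RingHom.ker q) (hst : ∀ i, ∀ a ∈ 𝔞, Δ i a ∈ 𝔞) :
    ∃ s, q s ≠ 0 ∧ ∀ a ∈ 𝔞, s * a = 0 := by
  set I := RingHom.ker q with hI
  have hXI : ∀ j, X j ∈ I := fun j => hX j
  let W : Derivation ℂ E E := ∑ j, X j • Δ j
  have hW : ∀ e, W e = ∑ j, X j * Δ j e := by
    intro e
    have h : Derivation.coeFnAddMonoidHom W = ∑ j, Derivation.coeFnAddMonoidHom (X j • Δ j) :=
      map_sum _ _ _
    have h2 := congrFun h e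
    rw [Finset.sum_apply] at h2
    exact h2
  have h0 : ∀ e, W e ∈ I := by
    intro e
    rw [hW]
    exact Ideal.sum_mem _ fun j _ => Ideal.mul_mem_right _ _ (hXI j)
  have hWX : ∀ j, W (X j) - X j ∈ I ^ 2 := by
    intro j
    have h2 : W (X j) - X j = ∑ i, X i * (Δ i (X j) - if i = j then 1 else 0) := by
      rw [hW]
      simp only [mul_sub, Finset.sum_sub_distrib, mul_ite, mul_one, mul_zero,
        Finset.sum_ite_eq', Finset.mem_univ, if_true]
    rw [h2]
    refine Ideal.sum_mem _ fun i _ => ?_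
    rw [pow_two]
    refine Ideal.mul_mem_mul (hXI i) ?_
    rw [hI, RingHom.mem_ker, map_sub, hΔ]
    split_ifs <;> simp
  have hsq : ∀ y ∈ I ^ 2, W y ∈ I ^ 2 := by
    intro y hy
    rw [pow_two] at hy ⊢
    refine Submodule.mul_induction_on hy ?_ ?_
    · intro a ha b hb
      rw [W.leibniz]
      simp only [smul_eq_mul]
      exact Ideal.add_mem _ (Ideal.mul_mem_mul ha (h0 b)) (Ideal.mul_mem_mul hb (h0 a))
    · intro a b ha hb
      rw [map_add]
      exact Ideal.add_mem _ ha hb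
  have h1 : ∀ y ∈ I, W y - y ∈ I ^ 2 := by
    intro y hy
    obtain ⟨u, hu, v, hv, rfl⟩ := Submodule.mem_sup.1 (hgen hy)
    have h3 : W (u + v) - (u + v) = (W u - u) + (W v - v) := by rw [map_add]; ring
    rw [h3]
    refine Ideal.add_mem _ ?_ (Ideal.sub_mem _ (hsq v hv) hv)
    refine Submodule.span_induction ?_ ?_ ?_ ?_ hu
    · rintro _ ⟨j, rfl⟩
      exact hWX j
    · simp
    · intro a b _ _ ha hb
      have h4 : W (a + b) - (a + b) = (W a - a) + (W b - b) := by rw [map_add]; ring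
      rw [h4]
      exact Ideal.add_mem _ ha hb
    · intro r a haa ha
      have h4 : W (r • a) - r • a = r * (W a - a) + a * W r := by
        rw [smul_eq_mul, W.leibniz]
        simp only [smul_eq_mul]
        ring
      rw [h4]
      have haI : a ∈ I := by
        have h5 : Submodule.span E (Set.range X) ≤ I :=
          Submodule.span_le.2 (by rintro _ ⟨j, rfl⟩; exact hXI j)
        exact h5 haa
      refine Ideal.add_mem _ (Ideal.mul_mem_left _ _ ha) ?_
      rw [pow_two]
      exact Ideal.mul_mem_mul haI (h0 r)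
  have hpow : ∀ k, 𝔞 ≤ I ^ (k + 1) := by
    intro k
    induction k with
    | zero => simpa using ha
    | succ k ih =>
      intro a haa
      have h2 := euler_pow W I h0 h1 (k + 1) a (ih haa)
      have h3 : W a ∈ I ^ (k + 1 + 1) := by
        rw [hW]
        refine Ideal.sum_mem _ fun j _ => ?_
        rw [pow_succ']
        exact Ideal.mul_mem_mul (hXI j) (ih (hst j a haa))
      have h4 : ((k + 1 : ℕ) : E) * a ∈ I ^ (k + 1 + 1) := by
        have h5 := Ideal.sub_mem _ h3 h2
        rwa [sub_sub_cancel] at h5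
      have h6 : a = algebraMap ℂ E (((k + 1 : ℕ) : ℂ)⁻¹) * (((k + 1 : ℕ) : E) * a) := by
        have h7 : ((k + 1 : ℕ) : E) = algebraMap ℂ E ((k + 1 : ℕ) : ℂ) := by
          rw [map_natCast]
        rw [h7, ← mul_assoc, ← map_mul, inv_mul_cancel₀ (Nat.cast_ne_zero.2 (Nat.succ_ne_zero k)),
          map_one, one_mul]
      rw [h6]
      exact Ideal.mul_mem_left _ _ h4
  have hle : 𝔞 ≤ I • 𝔞 → ∃ s, q s ≠ 0 ∧ ∀ a ∈ 𝔞, s * a = 0 := by
    intro h
    obtain ⟨r, hr, hr'⟩ := Submodule.exists_sub_one_mem_and_smul_eq_zero_of_fg_of_le_smul I 𝔞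
      (IsNoetherian.noetherian 𝔞) h
    refine ⟨r, ?_, fun a haa => hr' a haa⟩
    have h2 : q (r - 1) = 0 := hr
    rw [map_sub, map_one, sub_eq_zero] at h2
    rw [h2]
    exact one_ne_zero
  apply hle
  intro a haa
  have hmem : a ∈ (⨅ i : ℕ, I ^ i • ⊤ : Submodule E E) := by
    rw [Submodule.mem_iInf]
    intro i
    rcases i with _ | i
    · simp
    · have := hpow i haa
      simpa using this
  obtain ⟨r, hr⟩ := (Ideal.mem_iInf_smul_pow_eq_bot_iff I a).1 hmem
  rw [← hr]
  exact Submodule.smul_mem_smul r.2 haa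

end Pool.Agent.Helper50.NS
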